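import Pool.Agent.Helper104.SG.BS0
import Pool.Agent.Q53.EX.UnrE
import Pool.Agent.Q285.EX.Ncg
import Pool.Agent.Q275.EX.Res
import Pool.Agent.Q106.AR.NmB
import Pool.Agent.Q280.AR.Tow
import Pool.Agent.Q225.AR.FR

/-!
# Project SG (helper5), job BS, with the proved inputs
-/

set_option autoImplicit false

namespace Pool.Agent.Helper104.SG

/-- Base change to a totally ramified extension. -/
theorem bs : Pool.Agent.Q5.SG.J_BS :=
  bs0 (fun F M _ _ _ _ _ _ ψ N hN hRam hψ w g hg =>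
      Pool.Agent.Q53.EX.unr0 Pool.Agent.Q285.EX.ncg F M ψ N hN hRam hψ w g hg)
    Pool.Agent.Q225.AR.fr Pool.Agent.Q275.EX.res Pool.Agent.Q106.AR.nm Pool.Agent.Q280.AR.rF

end Pool.Agent.Helper104.SG
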