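import Pool.Agent.Q5.SG.Stm2
import Pool.Agent.Q53.EX.Desc0

/-!
# Project SG (helper5), job BS: base change to a totally ramified extension
-/

set_option autoImplicit false
set_option linter.unusedSectionVars false

namespace Pool.Agent.Helper104.SG

open NumberField IsDedekindDomain Module Pool.Agent.Q5.BR Pool.Agent.Q92.AR Pool.Agent.Q20.EX
open Pool.Agent.Q5.SG
open Pool.Agent.Q53.EX (Pr_mono art_infl exists_gal)
open Pool.Agent.Q125.AR (Ram_mono mem_under prin_eq_zero_of_valuation)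

/-- a Galois extension of `K` containing `L` and `M` -/
theorem exists_common (K L M : Type) [Field K] [NumberField K] [Field L] [NumberField L]
    [Field M] [NumberField M] [Algebra K L] [Algebra K M] :
    ∃ (Ω : Type) (_ : Field Ω) (_ : NumberField Ω) (_ : Algebra K Ω) (_ : Algebra L Ω)
      (_ : Algebra M Ω) (_ : IsScalarTower K L Ω) (_ : IsScalarTower K M Ω), IsGalois K Ω := by
  let A := AlgebraicClosure L
  let f : M →ₐ[K] A := IsAlgClosed.lift
  let g : L →ₐ[K] A := IsScalarTower.toAlgHom K L A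
  let P : IntermediateField K A := f.fieldRange ⊔ g.fieldRange
  have hf : FiniteDimensional K f.fieldRange := by
    exact LinearMap.finiteDimensional_range f.toLinearMap
  have hg : FiniteDimensional K g.fieldRange := by
    exact LinearMap.finiteDimensional_range g.toLinearMap
  have hP : FiniteDimensional K P := IntermediateField.finiteDimensional_sup _ _
  have hN : NumberField P := by
    have h2 : FiniteDimensional ℚ P := FiniteDimensional.trans ℚ K P
    have h3 : CharZero P := inferInstance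
    exact ⟨⟩
  let fP : M →ₐ[K] P := f.codRestrict P.toSubalgebra fun x =>
    (le_sup_left : f.fieldRange ≤ P) ⟨x, rfl⟩
  let gP : L →ₐ[K] P := g.codRestrict P.toSubalgebra fun x =>
    (le_sup_right : g.fieldRange ≤ P) ⟨x, rfl⟩
  obtain ⟨Ω, _, _, _, _, _, hG⟩ := exists_gal K P
  let aL : Algebra L Ω := ((algebraMap P Ω).comp gP.toRingHom).toAlgebra
  let aM : Algebra M Ω := ((algebraMap P Ω).comp fP.toRingHom).toAlgebra
  have tL : IsScalarTower K L Ω := IsScalarTower.of_algebraMap_eq fun x => by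
    change algebraMap K Ω x = algebraMap P Ω (gP (algebraMap K L x))
    rw [AlgHom.commutes, ← IsScalarTower.algebraMap_apply]
  have tM : IsScalarTower K M Ω := IsScalarTower.of_algebraMap_eq fun x => by
    change algebraMap K Ω x = algebraMap P Ω (fP (algebraMap K M x))
    rw [AlgHom.commutes, ← IsScalarTower.algebraMap_apply]
  exact ⟨Ω, inferInstance, inferInstance, inferInstance, aL, aM, tL, tM, hG⟩

/-- the statement of `Pool.Agent.Q53.EX.unr0` -/
def Unr0 : Prop := ∀ (F M : Type) [Field F] [NumberField F] [Field M] [NumberField M]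
    [Algebra F M] [IsGalois F M] (ψ : (M ≃ₐ[F] M) →* ℂˣ) (N : ℕ), N ≠ 0 →
    Ram F M N → TrivAt Set.univ N (art ψ) → ∀ (w : HeightOneSpectrum (𝓞 M))
    (g : M ≃ₐ[F] M), Inert w g → ψ g = 1

theorem bs0 (hU : Unr0) (hFR : S_FR) (hRES : S_RES) (hNm : S_Nm) (hRF : S_RF) : J_BS := by
  intro hNP hIG K L M _ _ _ _ _ _ _ _ _ ψ hψ N' hN' hRam χ hχ 𝔮 hq hTot hfin v w hw hwu
  obtain ⟨Ω, _, _, _, _, _, _, _, _⟩ := exists_common K L M
  obtain ⟨N1, hN1, hR1⟩ := hRF K Ω
  have : IsGalois L Ω := IsGalois.tower_top_of_isGalois K L Ω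
  -- the modulus
  have hnq : Ideal.absNorm 𝔮.asIdeal ≠ 0 := by
    rw [Ne, Ideal.absNorm_eq_zero_iff]
    exact 𝔮.ne_bot
  obtain ⟨N, hN, hd', hd1, hdq⟩ : ∃ N : ℕ, N ≠ 0 ∧ N' ∣ N ∧ N1 ∣ N ∧ Ideal.absNorm 𝔮.asIdeal ∣ N :=
    ⟨N' * N1 * Ideal.absNorm 𝔮.asIdeal, mul_ne_zero (mul_ne_zero hN' hN1) hnq,
      ⟨N1 * Ideal.absNorm 𝔮.asIdeal, by ring⟩, ⟨N' * Ideal.absNorm 𝔮.asIdeal, by ring⟩,
      ⟨N' * N1, by ring⟩⟩
  have hRΩ : Ram K Ω N := Ram_mono hd1 hR1
  have hNq : (N : 𝓞 K) ∈ 𝔮.asIdeal := by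
    obtain ⟨k, hk⟩ := hdq
    rw [hk, Nat.cast_mul]
    exact 𝔮.asIdeal.mul_mem_right _ (Ideal.absNorm_mem 𝔮.asIdeal)
  have hRL : Ram L Ω N := by
    intro u hu
    rw [← mem_under (F := K)]
    exact hRΩ _ fun h => hu (hFR.2.2.1 K L Ω u h)
  -- the characters
  let ψΩ : (Ω ≃ₐ[K] Ω) →* ℂˣ := ψ.comp (AlgEquiv.restrictNormalHom M)
  let ψL : (Ω ≃ₐ[L] Ω) →* ℂˣ := ψΩ.comp (rs K L Ω)
  have hkey : TrivAt Set.univ N (art ψL) := by
    intro x hx _ _
    have hxP : prin x ∈ Pr L N := fun u hu => prin_eq_zero_of_valuation (hx u hu)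
    have h1 : art ψL (prin x) = art ψΩ (nmD K L (prin x)) := hRES K L Ω ψΩ N hN hRΩ _ hxP
    have h2 : nmD K L (prin x) = prin (nu K L x) := (hNm K L).1 x
    have h3 : nmD K L (prin x) ∈ Pr K N := (hNm K L).2.2.2.1 N _ hxP
    have h4 : art ψΩ (nmD K L (prin x)) = art ψ (nmD K L (prin x)) :=
      art_infl hFR K M Ω hRΩ ψ ψΩ (fun g => rfl) h3
    have h5 : art ψ (nmD K L (prin x)) = χ (nmD K L (prin x)) := hχ _ (Pr_mono hd' h3)
    rw [h1, h4, h5, h2]
    obtain ⟨x₀, hx₀, hx₁⟩ := hNP K L 𝔮 hTot x fun u hu => hx u (by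
      rw [← mem_under (F := K), hu]
      exact hNq)
    have h6 : nu K L x = (nu K L x / x₀ ^ finrank K L) * x₀ ^ finrank K L := by
      rw [div_mul_cancel]
    have h7 : χ (prin (nu K L x / x₀ ^ finrank K L)) = 0 := hq _ (by
      rw [Units.val_div_eq_div_val, Units.val_pow_eq_pow_val]
      exact hx₁)
    have h8 : prin (x₀ ^ finrank K L) = finrank K L • prin x₀ :=
      (prinHom (F := K)).map_nsmul (finrank K L) (Additive.ofMul x₀)
    rw [h6, prin_mul, map_add, h7, zero_add, h8, map_nsmul, hfin x₀ hx₀]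
  refine hIG K L M Ω ψ hψ v w hw hwu fun W g hg => ?_
  exact hU L Ω ψL N hN hRL hkey W g hg

end Pool.Agent.Helper104.SG
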